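import Mathlib

/-!
# A finitely generated central algebra with commutative, non-Noetherian proper centralizers

For an arbitrary field `K` let `B = K[y][x]` and let `A` be the algebra of the matrices
`(f(0,0), n; 0, f)` over `B` with `y · n(0, y) = f(0, y) - f(0, 0)`. It is generated by
`(0, 0; 0, x)` and `(0, 1; 0, y)` (and is isomorphic to `K⟨X, Y⟩ / (X[X, Y], Y[X, Y])`). Its centre
is `K`, all its proper centralizers are commutative and none of them is Noetherian.
-/

set_option autoImplicit false

namespace Pool.Agent.Results.MP_dbb1e7_al.NoNoetherianCentralizer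

open Polynomial

universe u

variable (K : Type u) [Field K]

/-- the polynomial ring `K[y][x]` -/
abbrev B := K[X][X]

variable {K}

/-- `f(0, 0)` -/
noncomputable def ev (f : B K) : K := (f.coeff 0).coeff 0

/-- constants -/
noncomputable def cc (a : K) : B K := C (C a)

theorem ev_mul (f g : B K) : ev (f * g) = ev f * ev g := by
  unfold ev; rw [mul_coeff_zero, mul_coeff_zero]

theorem ev_add (f g : B K) : ev (f + g) = ev f + ev g := by
  unfold ev; rw [coeff_add, coeff_add]

/-- membership in the algebra `A` -/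
def P (M : Matrix (Fin 2) (Fin 2) (B K)) : Prop :=
  M 1 0 = 0 ∧ M 0 0 = cc (ev (M 1 1)) ∧
    X * (M 0 1).coeff 0 = (M 1 1).coeff 0 - C (ev (M 1 1))

theorem mul_entries (M N : Matrix (Fin 2) (Fin 2) (B K)) (i j : Fin 2) :
    (M * N) i j = M i 0 * N 0 j + M i 1 * N 1 j := by
  rw [Matrix.mul_apply, Fin.sum_univ_two]

variable (K) in
/-- the algebra `A` -/
def A : Subalgebra K (Matrix (Fin 2) (Fin 2) (B K)) where
  carrier := {M | P M}
  mul_mem' := by
    rintro M N ⟨h1, h2, h3⟩ ⟨h1', h2', h3'⟩
    have e11 : (M * N) 1 1 = M 1 1 * N 1 1 := by rw [mul_entries, h1]; ring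
    refine ⟨?_, ?_, ?_⟩
    · rw [mul_entries, h1, h1']; ring
    · rw [e11, ev_mul, mul_entries, h1', h2, h2']
      unfold cc
      rw [C_mul, C_mul]; ring
    · rw [e11, ev_mul, mul_entries, h2, coeff_add, mul_coeff_zero, mul_coeff_zero, mul_coeff_zero,
        C_mul]
      have : (cc (ev (M 1 1))).coeff 0 = C (ev (M 1 1)) := by unfold cc; rw [coeff_C_zero]
      rw [this]
      linear_combination C (ev (M 1 1)) * h3' + (N 1 1).coeff 0 * h3
  add_mem' := by
    rintro M N ⟨h1, h2, h3⟩ ⟨h1', h2', h3'⟩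
    refine ⟨?_, ?_, ?_⟩
    · rw [Matrix.add_apply, h1, h1', add_zero]
    · rw [Matrix.add_apply, Matrix.add_apply, h2, h2', ev_add]
      unfold cc
      rw [C_add, C_add]
    · rw [Matrix.add_apply, Matrix.add_apply, ev_add, coeff_add, coeff_add, C_add]
      linear_combination h3 + h3'
  algebraMap_mem' := by
    intro a
    have e : ∀ i j : Fin 2, (algebraMap K (Matrix (Fin 2) (Fin 2) (B K)) a) i j =
        if i = j then cc a else 0 := by
      intro i j
      rw [Matrix.algebraMap_matrix_apply]; rfl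
    have hev : ev (cc a) = a := by
      unfold ev cc; rw [coeff_C_zero, coeff_C_zero]
    refine ⟨?_, ?_, ?_⟩
    · rw [e, if_neg (by decide)]
    · rw [e, e, if_pos rfl, if_pos rfl, hev]
    · rw [e, e, if_neg (by decide), if_pos rfl, hev]
      unfold cc
      rw [coeff_zero, coeff_C_zero, mul_zero, sub_self]

/-- first generator -/
noncomputable def X1 : Matrix (Fin 2) (Fin 2) (B K) := !![0, 0; 0, X]
/-- second generator -/
noncomputable def Y1 : Matrix (Fin 2) (Fin 2) (B K) := !![0, 1; 0, C X]

theorem X1_mem : (X1 : Matrix (Fin 2) (Fin 2) (B K)) ∈ A K := by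
  refine ⟨rfl, ?_, ?_⟩
  · show (0 : B K) = cc (ev X)
    unfold ev cc; simp
  · show X * (0 : B K).coeff 0 = (X : B K).coeff 0 - C (ev X)
    unfold ev; simp

theorem Y1_mem : (Y1 : Matrix (Fin 2) (Fin 2) (B K)) ∈ A K := by
  refine ⟨rfl, ?_, ?_⟩
  · show (0 : B K) = cc (ev (C X))
    unfold ev cc; simp
  · show X * (1 : B K).coeff 0 = (C X : B K).coeff 0 - C (ev (C X))
    unfold ev; simp

theorem X_dvd (n : B K) (h : X * n.coeff 0 = 0) : ∃ g, n = X * g := by
  have h0 : n.coeff 0 = 0 := by
    rcases mul_eq_zero.1 h with h | h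
    · exact absurd h X_ne_zero
    · exact h
  exact X_dvd_iff.2 h0

variable (K) in
theorem A_eq : A K = Algebra.adjoin K {X1, Y1} := by
  set D := Algebra.adjoin K ({X1, Y1} : Set (Matrix (Fin 2) (Fin 2) (B K))) with hD
  have hX : X1 ∈ D := Algebra.subset_adjoin (by simp)
  have hY : Y1 ∈ D := Algebra.subset_adjoin (by simp)
  have hDA : D ≤ A K := by
    apply Algebra.adjoin_le
    rintro M (rfl | rfl)
    · exact X1_mem
    · exact Y1_mem
  -- the second diagonal entry
  let S : Subalgebra K (B K) :=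
    { carrier := {g | ∃ G ∈ D, G 1 1 = g}
      mul_mem' := by
        rintro g h ⟨G, hG, rfl⟩ ⟨H, hH, rfl⟩
        refine ⟨G * H, D.mul_mem hG hH, ?_⟩
        rw [mul_entries, (hDA hG).1]; ring
      add_mem' := by
        rintro g h ⟨G, hG, rfl⟩ ⟨H, hH, rfl⟩
        exact ⟨G + H, D.add_mem hG hH, rfl⟩
      algebraMap_mem' := by
        intro a
        refine ⟨algebraMap K _ a, D.algebraMap_mem a, ?_⟩
        rw [Matrix.algebraMap_matrix_apply, if_pos rfl] }
  have hSx : (X : B K) ∈ S := ⟨X1, hX, rfl⟩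
  have hSy : (C X : B K) ∈ S := ⟨Y1, hY, rfl⟩
  have hSC : ∀ p : K[X], (C p : B K) ∈ S := by
    intro p
    induction p using Polynomial.induction_on with
    | C a => exact S.algebraMap_mem a
    | add p q hp hq => rw [C_add]; exact S.add_mem hp hq
    | monomial n a _ =>
      rw [C_mul, C_pow]
      exact S.mul_mem (S.algebraMap_mem a) (S.pow_mem hSy _)
  have hS : ∀ g : B K, g ∈ S := by
    intro g
    induction g using Polynomial.induction_on with
    | C p => exact hSC p
    | add p q hp hq => exact S.add_mem hp hq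
    | monomial n p _ => exact S.mul_mem (hSC p) (S.pow_mem hSx _)
  have hE : ∀ g : B K, (!![0, X * g; 0, 0] : Matrix (Fin 2) (Fin 2) (B K)) ∈ D := by
    intro g
    obtain ⟨G, hG, hg⟩ := hS g
    have h10 : G 1 0 = 0 := (hDA hG).1
    have : (!![0, X * g; 0, 0] : Matrix (Fin 2) (Fin 2) (B K)) = (Y1 * X1 - X1 * Y1) * G := by
      ext i j
      fin_cases i <;> fin_cases j <;>
        simp [X1, Y1, Matrix.mul_apply, Fin.sum_univ_two, h10, hg]
    rw [this]
    exact D.mul_mem (D.sub_mem (D.mul_mem hY hX) (D.mul_mem hX hY)) hG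
  apply le_antisymm _ hDA
  intro M hM
  obtain ⟨G, hG, hg⟩ := hS (M 1 1)
  obtain ⟨h1, h2, h3⟩ := hM
  obtain ⟨g1, g2, g3⟩ := hDA hG
  rw [hg] at g2 g3
  obtain ⟨g, hgg⟩ := X_dvd (M 0 1 - G 0 1) (by
    rw [coeff_sub, mul_sub, h3, g3, sub_self])
  have : M = G + !![0, X * g; 0, 0] := by
    rw [← hgg]
    ext i j
    fin_cases i <;> fin_cases j <;> simp [h1, h2, g1, g2, hg]
  rw [this]
  exact D.add_mem hG (hE g)

/-! ### Centralizers -/

/-- off-diagonal entry -/
noncomputable def nn (b : A K) : B K := b.1 0 1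
/-- second diagonal entry -/
noncomputable def ff (b : A K) : B K := b.1 1 1
/-- difference of the diagonal entries -/
noncomputable def hh (b : A K) : B K := ff b - cc (ev (ff b))

theorem A_ext (a b : A K) (h1 : nn a = nn b) (h2 : ff a = ff b) : a = b := by
  apply Subtype.ext
  apply Matrix.ext
  intro i j
  obtain ⟨a1, a2, _⟩ := a.2
  obtain ⟨b1, b2, _⟩ := b.2
  have h2' : a.1 1 1 = b.1 1 1 := h2
  have h1' : a.1 0 1 = b.1 0 1 := h1
  fin_cases i <;> fin_cases j
  · show a.1 0 0 = b.1 0 0
    rw [a2, b2, h2']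
  · exact h1
  · show a.1 1 0 = b.1 1 0
    rw [a1, b1]
  · exact h2

theorem nn_mul (a b : A K) : nn (a * b) = cc (ev (ff a)) * nn b + nn a * ff b := by
  show (a.1 * b.1) 0 1 = _
  rw [mul_entries, a.2.2.1]; rfl

theorem ff_mul (a b : A K) : ff (a * b) = ff a * ff b := by
  show (a.1 * b.1) 1 1 = _
  rw [mul_entries, a.2.1]
  show 0 * _ + ff a * ff b = _
  ring

theorem comm_iff (a b : A K) : a * b = b * a ↔ nn a * hh b = nn b * hh a := by
  constructor
  · intro h
    have h1 := congrArg nn h
    rw [nn_mul, nn_mul] at h1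
    unfold hh
    linear_combination h1
  · intro h
    apply A_ext
    · rw [nn_mul, nn_mul]
      unfold hh at h
      linear_combination h
    · rw [ff_mul, ff_mul, mul_comm]

theorem hh_coeff (b : A K) : X * (nn b).coeff 0 = (hh b).coeff 0 := by
  have := b.2.2.2
  show X * (b.1 0 1).coeff 0 = (b.1 1 1 - cc (ev (b.1 1 1))).coeff 0
  rw [this, coeff_sub]
  unfold cc
  rw [coeff_C_zero]

/-- elements with given entries -/
noncomputable def mkA (n f : B K) (h0 : ev f = 0) (h : X * n.coeff 0 = f.coeff 0) : A K :=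
  ⟨!![0, n; 0, f], by
    refine ⟨rfl, ?_, ?_⟩
    · show (0 : B K) = cc (ev f)
      rw [h0]; unfold cc; simp
    · show X * n.coeff 0 = f.coeff 0 - C (ev f)
      rw [h0, h]; simp⟩

theorem central_iff (a : A K) : a ∈ Subalgebra.center K (A K) ↔ nn a = 0 ∧ hh a = 0 := by
  rw [Subalgebra.mem_center_iff]
  constructor
  · intro h
    have h1 := (comm_iff _ _).1 (h ⟨X1, X1_mem⟩)
    have h2 := (comm_iff _ _).1 (h ⟨Y1, Y1_mem⟩)
    have e1 : nn (⟨X1, X1_mem⟩ : A K) = 0 := rfl
    have e2 : hh (⟨X1, X1_mem⟩ : A K) = X := by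
      show (X : B K) - cc (ev X) = X
      unfold cc ev; simp
    have e3 : nn (⟨Y1, Y1_mem⟩ : A K) = 1 := rfl
    rw [e1, e2, zero_mul] at h1
    have hn : nn a = 0 := by
      rcases mul_eq_zero.1 h1.symm with h | h
      · exact h
      · exact absurd h X_ne_zero
    rw [e3, one_mul, hn, zero_mul] at h2
    exact ⟨hn, h2⟩
  · rintro ⟨h1, h2⟩ b
    rw [comm_iff, h1, h2, mul_zero, zero_mul]

variable (K) in
theorem center_eq : Subalgebra.center K (A K) = ⊥ := by
  apply le_antisymm _ bot_le
  intro a ha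
  obtain ⟨h1, h2⟩ := (central_iff a).1 ha
  rw [Algebra.mem_bot]
  refine ⟨ev (ff a), ?_⟩
  apply A_ext
  · rw [h1]
    show (algebraMap K (Matrix (Fin 2) (Fin 2) (B K)) (ev (ff a))) 0 1 = 0
    rw [Matrix.algebraMap_matrix_apply, if_neg (by decide)]
  · have h3 : ff a = cc (ev (ff a)) := sub_eq_zero.1 h2
    have h4 : (algebraMap K (Matrix (Fin 2) (Fin 2) (B K)) (ev (ff a))) 1 1 =
        cc (ev (ff a)) := by
      rw [Matrix.algebraMap_matrix_apply, if_pos rfl]; rfl
    exact h4.trans h3.symm

theorem centralizer_comm (a : A K) (ha : a ∉ Subalgebra.center K (A K)) (b c : A K)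
    (hb : a * b = b * a) (hc : a * c = c * a) : b * c = c * b := by
  rw [central_iff, not_and_or] at ha
  rw [comm_iff] at hb hc ⊢
  by_cases hca : hh a = 0
  · have hn : nn a ≠ 0 := by
      rcases ha with h | h
      · exact h
      · exact absurd hca h
    rw [hca, mul_zero] at hb hc
    rcases mul_eq_zero.1 hb with h | hb
    · exact absurd h hn
    rcases mul_eq_zero.1 hc with h | hc
    · exact absurd h hn
    rw [hb, hc, mul_zero, mul_zero]
  · apply mul_left_cancel₀ hca
    linear_combination hh b * hc - hh c * hb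

theorem exists_pi (a : A K) (ha : a ∉ Subalgebra.center K (A K)) :
    ∃ π : B K, ¬ IsUnit π ∧ ∀ b : A K, a * b = b * a → π ∣ hh b := by
  rw [central_iff, not_and_or] at ha
  by_cases hca : hh a = 0
  · have hn : nn a ≠ 0 := by
      rcases ha with h | h
      · exact h
      · exact absurd hca h
    refine ⟨0, not_isUnit_zero, ?_⟩
    intro b hb
    rw [comm_iff, hca, mul_zero] at hb
    rcases mul_eq_zero.1 hb with h | h
    · exact absurd h hn
    · rw [h]
  · obtain ⟨c1, n1, d, hrel, hc, hn⟩ :=
      UniqueFactorizationMonoid.exists_reduced_factors (hh a) hca (nn a)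
    have hd : d ≠ 0 := by
      rintro rfl
      rw [zero_mul] at hc
      exact hca hc.symm
    have key : ∀ b : A K, a * b = b * a → ∃ g, hh b = c1 * g ∧ nn b = n1 * g := by
      intro b hb
      rw [comm_iff, ← hc, ← hn] at hb
      have h1 : n1 * hh b = nn b * c1 := by
        apply mul_left_cancel₀ hd
        linear_combination hb
      have h2 : c1 ∣ hh b := by
        apply hrel.dvd_of_dvd_mul_left
        exact ⟨nn b, by rw [h1, mul_comm]⟩
      obtain ⟨g, hg⟩ := h2
      refine ⟨g, hg, ?_⟩
      have hc1 : c1 ≠ 0 := by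
        rintro rfl
        rw [mul_zero] at hc
        exact hca hc.symm
      apply mul_left_cancel₀ hc1
      rw [hg] at h1
      linear_combination (-1 : B K) * h1
    by_cases hu : X * n1.coeff 0 = c1.coeff 0
    · refine ⟨c1, ?_, ?_⟩
      · intro hunit
        obtain ⟨r, hr, hr'⟩ := Polynomial.isUnit_iff.1 hunit
        have : c1.coeff 0 = r := by rw [← hr', coeff_C_zero]
        rw [this] at hu
        have hX : IsUnit (X : K[X]) := isUnit_of_dvd_unit ⟨_, hu.symm⟩ hr
        exact not_isUnit_X hX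
      · intro b hb
        obtain ⟨g, hg, _⟩ := key b hb
        exact ⟨g, hg⟩
    · refine ⟨X, not_isUnit_X, ?_⟩
      intro b hb
      obtain ⟨g, hg, hg'⟩ := key b hb
      have h0 := hh_coeff b
      rw [hg, hg', mul_coeff_zero, mul_coeff_zero] at h0
      have h1 : (X * n1.coeff 0 - c1.coeff 0) * g.coeff 0 = 0 := by linear_combination h0
      rcases mul_eq_zero.1 h1 with h | h
      · exact absurd (sub_eq_zero.1 h) hu
      · rw [X_dvd_iff, hg, mul_coeff_zero, h, mul_zero]

/-- the quotient of `K[x, y]` by a non-unit is infinite-dimensional -/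
theorem infinite_quotient (π : B K) (hπ : ¬ IsUnit π) (s : Finset (B K))
    (h : ∀ g : B K, ∃ u ∈ Submodule.span K (s : Set (B K)), π ∣ g - u) : False := by
  set W : Submodule K (B K) := (Ideal.span {π}).restrictScalars K with hW
  have memW : ∀ g, g ∈ W ↔ π ∣ g := fun g => Ideal.mem_span_singleton
  have hfin : Module.Finite K (B K ⧸ W) := by
    have : Module.Finite K (Submodule.span K (s : Set (B K))) :=
      Module.Finite.span_of_finite K s.finite_toSet
    apply Module.Finite.of_surjective
      (W.mkQ.comp (Submodule.span K (s : Set (B K))).subtype)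
    intro q
    obtain ⟨g, rfl⟩ := W.mkQ_surjective q
    obtain ⟨u, hu, hd⟩ := h g
    refine ⟨⟨u, hu⟩, ?_⟩
    show W.mkQ u = W.mkQ g
    symm
    rw [Submodule.mkQ_apply, Submodule.mkQ_apply, Submodule.Quotient.eq]
    exact (memW _).2 hd
  have hex : ∃ φ : K[X] →ₗ[K] B K, ∀ p, π ∣ φ p → p = 0 := by
    by_cases h0 : π = 0
    · refine ⟨(Algebra.linearMap K[X] (B K)).restrictScalars K, ?_⟩
      intro p hp
      rw [h0, zero_dvd_iff] at hp
      exact C_eq_zero.1 hp
    · by_cases h1 : π.natDegree = 0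
      · obtain ⟨q, hq⟩ : ∃ q, π = C q := ⟨_, eq_C_of_natDegree_eq_zero h1⟩
        have hq0 : q ≠ 0 := by
          rintro rfl
          exact h0 (by rw [hq, C_0])
        have hqu : q.natDegree ≠ 0 := by
          intro hd
          apply hπ
          rw [hq, isUnit_C, eq_C_of_natDegree_eq_zero hd, isUnit_C, isUnit_iff_ne_zero]
          intro h
          apply hq0
          rw [eq_C_of_natDegree_eq_zero hd, h, C_0]
        refine ⟨(Polynomial.mapAlgHom (Algebra.ofId K K[X])).toLinearMap, ?_⟩
        intro p hp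
        have hp' : (C q : B K) ∣ Polynomial.map (algebraMap K K[X]) p := by rw [← hq]; exact hp
        rw [C_dvd_iff_dvd_coeff] at hp'
        ext i
        by_contra hi
        have h2 := hp' i
        rw [coeff_map] at h2
        have h3 := natDegree_le_of_dvd h2 (by
          rw [Polynomial.algebraMap_apply]
          simpa using hi)
        rw [Polynomial.algebraMap_apply, natDegree_C] at h3
        omega
      · refine ⟨(Algebra.linearMap K[X] (B K)).restrictScalars K, ?_⟩
        intro p hp
        have hp' : π ∣ C p := hp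
        by_contra hpne
        have h3 := natDegree_le_of_dvd hp' (C_ne_zero.2 hpne)
        rw [natDegree_C] at h3
        omega
  obtain ⟨φ, hφ⟩ := hex
  have hinj : Function.Injective (W.mkQ.comp φ) := by
    rw [injective_iff_map_eq_zero]
    intro p hp
    apply hφ
    rw [← memW]
    have : W.mkQ (φ p) = 0 := hp
    rwa [Submodule.mkQ_apply, Submodule.Quotient.mk_eq_zero] at this
  have : Module.Finite K K[X] := Module.Finite.of_injective _ hinj
  exact Polynomial.not_finite this

theorem not_noetherian (a : A K) (ha : a ∉ Subalgebra.center K (A K)) :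
    ¬ IsNoetherianRing (Subalgebra.centralizer K ({a} : Set (A K))) := by
  intro hN
  obtain ⟨π, hπ, hdvd⟩ := exists_pi a ha
  have hmem : ∀ b : A K, b ∈ Subalgebra.centralizer K ({a} : Set (A K)) ↔ a * b = b * a := by
    intro b
    rw [Subalgebra.mem_centralizer_iff]
    simp
  -- the ideal
  let J : Ideal (Subalgebra.centralizer K ({a} : Set (A K))) :=
    { carrier := {b | ∃ g, nn b.1 = X * nn a * g ∧ ff b.1 = X * hh a * g}
      add_mem' := by
        rintro b c ⟨g, h1, h2⟩ ⟨g', h1', h2'⟩
        refine ⟨g + g', ?_, ?_⟩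
        · show nn b.1 + nn c.1 = _
          rw [h1, h1']; ring
        · show ff b.1 + ff c.1 = _
          rw [h2, h2']; ring
      zero_mem' := ⟨0, by rw [mul_zero]; rfl, by rw [mul_zero]; rfl⟩
      smul_mem' := by
        rintro c b ⟨g, h1, h2⟩
        have hc := (comm_iff _ _).1 ((hmem c.1).1 c.2)
        refine ⟨ff c.1 * g, ?_, ?_⟩
        · show nn (c.1 * b.1) = _
          rw [nn_mul, h1, h2]
          have : cc (ev (ff c.1)) = ff c.1 - hh c.1 := by unfold hh; ring
          rw [this]
          linear_combination (-X * g) * hc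
        · show ff (c.1 * b.1) = _
          rw [ff_mul, h2]; ring }
  obtain ⟨s, hs⟩ := (isNoetherianRing_iff_ideal_fg _).1 hN J
  have hsJ : ∀ b ∈ s, ∃ g, nn b.1 = X * nn a * g ∧ ff b.1 = X * hh a * g := by
    intro b hb
    have : b ∈ J := by rw [← hs]; exact Submodule.subset_span hb
    exact this
  choose! γ hγ using hsJ
  classical
  have key : ∀ b ∈ J, ∃ g, (nn b.1 = X * nn a * g ∧ ff b.1 = X * hh a * g) ∧
      ∃ u ∈ Submodule.span K ((s.image γ : Finset (B K)) : Set (B K)), π ∣ g - u := by
    intro b hb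
    rw [← hs] at hb
    induction hb using Submodule.span_induction with
    | mem b hb =>
      refine ⟨γ b, hγ b hb, γ b, Submodule.subset_span ?_, by rw [sub_self]; exact dvd_zero _⟩
      exact Finset.mem_coe.2 (Finset.mem_image_of_mem _ hb)
    | zero =>
      exact ⟨0, ⟨by rw [mul_zero]; rfl, by rw [mul_zero]; rfl⟩, 0, zero_mem _,
        by rw [sub_self]; exact dvd_zero _⟩
    | add b c _ _ ih ih' =>
      obtain ⟨g, ⟨h1, h2⟩, u, hu, hd⟩ := ih
      obtain ⟨g', ⟨h1', h2'⟩, u', hu', hd'⟩ := ih'
      refine ⟨g + g', ⟨?_, ?_⟩, u + u', add_mem hu hu', ?_⟩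
      · show nn b.1 + nn c.1 = _
        rw [h1, h1']; ring
      · show ff b.1 + ff c.1 = _
        rw [h2, h2']; ring
      · rw [add_sub_add_comm]; exact dvd_add hd hd'
    | smul c b _ h =>
      obtain ⟨g, ⟨h1, h2⟩, u, hu, hd⟩ := h
      have hc := (comm_iff _ _).1 ((hmem c.1).1 c.2)
      refine ⟨ff c.1 * g, ⟨?_, ?_⟩, ev (ff c.1) • u, Submodule.smul_mem _ _ hu, ?_⟩
      · show nn (c.1 * b.1) = _
        rw [nn_mul, h1, h2]
        have : cc (ev (ff c.1)) = ff c.1 - hh c.1 := by unfold hh; ring
        rw [this]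
        linear_combination (-X * g) * hc
      · show ff (c.1 * b.1) = _
        rw [ff_mul, h2]; ring
      · have e : ff c.1 * g - ev (ff c.1) • u = hh c.1 * g + cc (ev (ff c.1)) * (g - u) := by
          have : ev (ff c.1) • u = cc (ev (ff c.1)) * u := by
            rw [Algebra.smul_def]; rfl
          rw [this]
          unfold hh
          ring
        rw [e]
        exact dvd_add (dvd_mul_of_dvd_left (hdvd c.1 ((hmem c.1).1 c.2)) _)
          (dvd_mul_of_dvd_right hd _)
  apply infinite_quotient π hπ (s.image γ)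
  intro g
  have hX0 : ev (X * hh a * g) = 0 := by
    unfold ev; rw [mul_assoc, mul_coeff_zero]; simp
  have hX1 : X * (X * nn a * g).coeff 0 = (X * hh a * g).coeff 0 := by
    rw [mul_assoc, mul_assoc, mul_coeff_zero, mul_coeff_zero]; simp
  let b : A K := mkA (X * nn a * g) (X * hh a * g) hX0 hX1
  have hnb : nn b = X * nn a * g := rfl
  have hfb : ff b = X * hh a * g := rfl
  have hhb : hh b = X * hh a * g := by
    show ff b - cc (ev (ff b)) = _
    rw [hfb, hX0]
    unfold cc
    rw [C_0, C_0, sub_zero]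
  have hcomm : a * b = b * a := by
    rw [comm_iff, hnb, hhb]; ring
  obtain ⟨g', ⟨h1, h2⟩, hu⟩ := key ⟨b, (hmem b).2 hcomm⟩ ⟨g, hnb, hfb⟩
  have h1' : X * nn a * g = X * nn a * g' := h1
  have h2' : X * hh a * g = X * hh a * g' := h2
  have hgg : g = g' := by
    rw [central_iff, not_and_or] at ha
    rcases ha with h | h
    · exact mul_left_cancel₀ (mul_ne_zero X_ne_zero h) h1'
    · exact mul_left_cancel₀ (mul_ne_zero X_ne_zero h) h2'
  rw [hgg]
  exact hu

/-- **For every field `K` there is a finitely generated central `K`-algebra, different from `K`,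
all of whose proper centralizers are commutative and none of whose proper centralizers is
Noetherian.** -/
theorem result (K : Type u) [Field K] :
    ∃ (A : Type u) (_ : Ring A) (_ : Algebra K A), Algebra.FiniteType K A ∧
      Subalgebra.center K A = ⊥ ∧ (∃ a : A, a ∉ Subalgebra.center K A) ∧
      ∀ a : A, a ∉ Subalgebra.center K A →
        (∀ b ∈ Subalgebra.centralizer K ({a} : Set A),
          ∀ c ∈ Subalgebra.centralizer K ({a} : Set A), b * c = c * b) ∧
        ¬ IsNoetherianRing (Subalgebra.centralizer K ({a} : Set A)) := by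
  refine ⟨A K, inferInstance, inferInstance, ?_, center_eq K, ?_, ?_⟩
  · rw [← Subalgebra.fg_iff_finiteType, A_eq]
    exact Subalgebra.fg_def.2 ⟨_, Set.toFinite _, rfl⟩
  · refine ⟨⟨Y1, Y1_mem⟩, ?_⟩
    rw [central_iff]
    rintro ⟨h, _⟩
    exact one_ne_zero h
  · intro a ha
    refine ⟨?_, not_noetherian a ha⟩
    intro b hb c hc
    rw [Subalgebra.mem_centralizer_iff] at hb hc
    exact centralizer_comm a ha b c (hb a (by simp)) (hc a (by simp))

end Pool.Agent.Results.MP_dbb1e7_al.NoNoetherianCentralizer
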